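import Pool.Agent.helper82.OG.Spec

set_option autoImplicit false

open Finset

namespace Pool.Agent.OG

open Pool.Agent.EP

theorem COL_fac (c x y : ℕ) (hc : 0 < c) (h : c + 3 * x ^ 2 = 3 * y ^ 2) :
    x < y ∧ c = 3 * (y - x) * (x + y) := by
  have hlt : x < y := by
    by_contra hcon
    push Not at hcon
    have : y ^ 2 ≤ x ^ 2 := Nat.pow_le_pow_left hcon 2
    omega
  refine ⟨hlt, ?_⟩
  obtain ⟨e, rfl⟩ := Nat.exists_eq_add_of_lt hlt
  have e1 : x + e + 1 - x = e + 1 := by omega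
  rw [e1]
  nlinarith [h]

theorem COL : COL_stmt := by
  classical
  intro c V hc
  apply Finset.card_le_card_of_injOn (fun x : ℕ × ℕ => x.2 - x.1)
  · intro x hx
    simp only [coe_filter, mem_product, mem_Ioc, Set.mem_ofPred_eq] at hx
    obtain ⟨h1, h2⟩ := COL_fac c x.1 x.2 hc hx.2
    simp only [mem_coe, Nat.mem_divisors]
    exact ⟨⟨3 * (x.1 + x.2), by rw [h2]; ring⟩, by omega⟩
  · intro x hx y hy hxy
    simp only [coe_filter, mem_product, mem_Ioc, Set.mem_ofPred_eq] at hx hy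
    dsimp only at hxy
    obtain ⟨h1, h2⟩ := COL_fac c x.1 x.2 hc hx.2
    obtain ⟨h3, h4⟩ := COL_fac c y.1 y.2 hc hy.2
    have h5 : 3 * (x.2 - x.1) * (x.1 + x.2) = 3 * (x.2 - x.1) * (y.1 + y.2) := by
      rw [← h2, h4, hxy]
    have h6 : x.1 + x.2 = y.1 + y.2 := Nat.eq_of_mul_eq_mul_left (by omega) h5
    apply Prod.ext <;> omega

end Pool.Agent.OG
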